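import Pool.Agent.W97.KE.Stm

set_option autoImplicit false

open scoped Classical

namespace Pool.Agent.W912.KE

open Pool.Agent.W97.KE

theorem appr_zero' (p : ℕ) [Fact p.Prime] (k : ℕ) : (0 : ℤ_[p]).appr k = 0 := by
  have h : PadicInt.toZModPow k (0 : ℤ_[p]) = 0 := map_zero _
  change (((0 : ℤ_[p]).appr k : ℕ) : ZMod (p ^ k)) = 0 at h
  rw [ZMod.natCast_eq_zero_iff] at h
  exact Nat.eq_zero_of_dvd_of_lt h (PadicInt.appr_lt _ _)

theorem appr_one' (p : ℕ) [hp : Fact p.Prime] (k : ℕ) : (1 : ℤ_[p]).appr (k + 1) = 1 := by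
  have h : PadicInt.toZModPow (k + 1) (1 : ℤ_[p]) = 1 := map_one _
  change (((1 : ℤ_[p]).appr (k + 1) : ℕ) : ZMod (p ^ (k + 1))) = 1 at h
  have h' : (((1 : ℤ_[p]).appr (k + 1) : ℕ) : ZMod (p ^ (k + 1))) = ((1 : ℕ) : ZMod _) := by
    rw [h, Nat.cast_one]
  rw [ZMod.natCast_eq_natCast_iff] at h'
  exact Nat.ModEq.eq_of_lt_of_lt h' (PadicInt.appr_lt _ _)
    (Nat.one_lt_pow (Nat.succ_ne_zero k) hp.out.one_lt)

theorem toZMod_appr (p : ℕ) [hp : Fact p.Prime] (x : ℤ_[p]) :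
    ((x.appr 1 : ℕ) : ZMod p) = PadicInt.toZMod x := by
  have h := PadicInt.appr_spec 1 x
  rw [pow_one, ← PadicInt.maximalIdeal_eq_span_p, ← PadicInt.ker_toZMod, RingHom.mem_ker,
    map_sub, map_natCast, sub_eq_zero] at h
  exact h.symm

theorem s_grp : S_GRP := by
  intro hsig p hp m hm
  obtain ⟨hs1, hs2, hs3, hs4⟩ := hsig
  have hN : ∀ n : ℕ, 1 ≤ m * p ^ (n + 1) := fun n =>
    Nat.one_le_iff_ne_zero.2 (mul_ne_zero (by omega) (pow_ne_zero _ hp.out.ne_zero))
  have huniq : ∀ (N : ℕ), 1 ≤ N → ∀ (u v : (ZMod N)ˣ) (h : GQ), IsSig N u h → IsSig N v h →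
      u = v := by
    intro N hN u v h hu hv
    refine ((hs3 N hN u v h h hu hv).2.2).2 ?_
    intro z _
    rw [inv_mul_cancel]
    rfl
  refine ⟨?_, ?_⟩
  · intro σ
    choose u hu using fun n : ℕ => hs2 (m * p ^ (n + 1)) (hN n) σ
    refine ⟨⟨fun n => MonoidAlgebra.single (u n) 1, ?_⟩, ?_⟩
    · intro n
      have h1 := hs4 (m * p ^ (n + 1 + 1)) (m * p ^ (n + 1)) (hN (n + 1))
        (Nat.mul_dvd_mul_left m (pow_dvd_pow p (Nat.le_succ (n + 1)))) (u (n + 1)) σ (hu (n + 1))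
      have h2 := huniq _ (hN n) _ _ σ h1 (hu n)
      change projn p m n (MonoidAlgebra.single (u (n + 1)) 1) = MonoidAlgebra.single (u n) 1
      rw [← h2]
      unfold projn
      rw [MonoidAlgebra.mapDomainRingHom_apply, MonoidAlgebra.mapDomain_single]
    · intro n
      exact ⟨u n, hu n, rfl⟩
  · intro W hW hact hform
    refine ⟨?_, ?_⟩
    · intro x σ hx a
      obtain ⟨⟨k, hk⟩, n, hn⟩ := hW a
      obtain ⟨u, hu, hxu⟩ := hx n
      have hk' : p ^ (k + 1) • a = 0 := by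
        rw [pow_succ', mul_smul, hk, smul_zero]
      rw [hform x a n (k + 1) hn hk', finsum_eq_single _ u]
      · rw [hxu, MonoidAlgebra.coeff_single, Finsupp.single_eq_same, appr_one', one_nsmul]
        have hsg : IsSig (m * p ^ (n + 1)) u (sig (m * p ^ (n + 1)) u) :=
          Classical.epsilon_spec (hs1 _ (hN n) u)
        have h3 : ∀ z : Qb, z ^ (m * p ^ (n + 1)) = 1 →
            (sig (m * p ^ (n + 1)) u * σ⁻¹) z = z := by
          have h4 := (hs3 _ (hN n) _ _ _ _ ((hs3 _ (hN n) _ _ _ _ hu hu).2.1)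
            ((hs3 _ (hN n) _ _ _ _ hsg hsg).2.1)).2.2.1 rfl
          intro z hz
          have h5 := h4 z hz
          rwa [inv_inv] at h5
        conv_rhs => rw [show σ⁻¹ = (sig (m * p ^ (n + 1)) u)⁻¹ *
          (sig (m * p ^ (n + 1)) u * σ⁻¹) by rw [inv_mul_cancel_left], hact, hn _ h3]
      · intro v hv
        rw [hxu, MonoidAlgebra.coeff_single, Finsupp.single_eq_of_ne (by tauto), appr_zero']
        exact zero_nsmul _
    · intro x a hpa hfix hunit h0
      have hn : FixedBy W p m a 1 := fun h _ => hfix h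
      rw [hform x a 1 1 hn (by rw [pow_one]; exact hpa)] at h0
      have hfin : Finite (ZMod (m * p ^ (1 + 1)))ˣ := inferInstance
      have : Fintype (ZMod (m * p ^ (1 + 1)))ˣ := Fintype.ofFinite _
      rw [finsum_eq_sum_of_fintype] at h0 hunit
      simp_rw [hfix] at h0
      rw [← Finset.sum_smul] at h0
      set S : ℕ := ∑ u : (ZMod (m * p ^ (1 + 1)))ˣ, ((x.1 1).coeff u : ℤ_[p]).appr 1 with hS
      have hc : Nat.Coprime S p := by
        rw [Nat.coprime_comm, Nat.Prime.coprime_iff_not_dvd hp.out]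
        intro hd
        have h1 : (S : ZMod p) = 0 := (ZMod.natCast_eq_zero_iff _ _).2 hd
        have h2 : (S : ZMod p) = PadicInt.toZMod
            (∑ u : (ZMod (m * p ^ (1 + 1)))ˣ, ((x.1 1).coeff u : ℤ_[p])) := by
          rw [hS, Nat.cast_sum, map_sum]
          exact Finset.sum_congr rfl fun u _ => toZMod_appr p _
        have h3 := hunit.map (PadicInt.toZMod (p := p))
        rw [← h2, h1] at h3
        exact not_isUnit_zero h3
      have h1 : addOrderOf a ∣ S := addOrderOf_dvd_of_nsmul_eq_zero h0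
      have h2 : addOrderOf a ∣ p := addOrderOf_dvd_of_nsmul_eq_zero hpa
      have h3 := Nat.eq_one_of_dvd_coprimes hc h1 h2
      exact AddMonoid.addOrderOf_eq_one_iff.1 h3

end Pool.Agent.W912.KE
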